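import Pool.Agent.MP_88b4a2_lc.Defs
import Pool.Agent.Mg.F88b4a2.Ga2b59b
import Pool.Agent.Mg.F88b4a2.G58a476

namespace Pool.Agent.Results.MP_88b4a2_lc.BoundedWL

open Pool.Agent.MP_88b4a2_lc

theorem result : ∃ k : ℕ, 1 ≤ k ∧ ∀ (H N : Type) [CommGroup H] [CommGroup N] [Finite H] [Finite N]
    (θ : H →* MulAut N), (Nat.card H).Coprime (Nat.card N) →
    ∀ (K : Type) [Group K] [Finite K], Nat.card K = Nat.card (N ⋊[θ] H) →
      IsEmpty ((N ⋊[θ] H) ≃* K) →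
      ∃ r : ℕ, WinsIn r (fun _ : Fin (k + 1) => (none : Option ((N ⋊[θ] H) × K))) := by
  obtain ⟨q, hq⟩ := star
  exact group_layer _ (sysThm hq)

end Pool.Agent.Results.MP_88b4a2_lc.BoundedWL
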