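import Pool.Agent.MP_88b4a2_lc.Defs
import Pool.Agent.MP_88b4a2_lc.Rd.C

namespace Pool.Agent.Results.MP_88b4a2_lc.PolylogRounds

open Pool.Agent.MP_88b4a2_lc

theorem result : ∃ k C : ℕ, 1 ≤ k ∧
    ∀ (H N : Type) [CommGroup H] [CommGroup N] [Finite H] [Finite N] (θ : H →* MulAut N)
      (H' N' : Type) [CommGroup H'] [CommGroup N'] [Finite H'] [Finite N'] (θ' : H' →* MulAut N'),
      (Nat.card H).Coprime (Nat.card N) → (Nat.card H').Coprime (Nat.card N') →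
      Nat.card (N' ⋊[θ'] H') = Nat.card (N ⋊[θ] H) →
      (IsEmpty ((N ⋊[θ] H) ≃* (N' ⋊[θ'] H')) ↔
        WinsIn (C * (Nat.log 2 (Nat.card (N ⋊[θ] H)) + 1) ^ 3)
          (fun _ : Fin (k + 1) => (none : Option ((N ⋊[θ] H) × (N' ⋊[θ'] H'))))) := by
  obtain ⟨k, C, hk, h⟩ := Rd.rounds
  refine ⟨k, C, hk, fun H N _ _ _ _ θ H' N' _ _ _ _ θ' hc _ _ => ⟨fun he => ?_, fun hw => ?_⟩⟩
  · have : Finite (N' ⋊[θ'] H') := Finite.of_equiv _ SemidirectProduct.equivProd.symm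
    exact h H N θ hc _ he
  · exact ⟨fun φ => Rd.not_winsIn φ _ _ (by simp) hw⟩

end Pool.Agent.Results.MP_88b4a2_lc.PolylogRounds
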